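import Pool.Agent.H5.WL.Fin

set_option autoImplicit false

/-!
# Relations with few coefficients `±2` (or few coefficients `±1`), of any length

A weakly independent family of `n` positive integers splits into `8 m` classes, where
`5 log (h ⌈log₂ n⌉ + 12) + 12 ≤ m`, such that no class has a nontrivial relation with coefficients in
`{0, ±1, ±2}` in which at most `h` coefficients are `±2`, or at most `h` coefficients are `±1`.
The short relations are removed by `H5WL.fin_col`, the long ones by a random colouring with `8` colours: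
for a given set of signed coefficients `±2` the possible sets of signed coefficients `±1` satisfy a
Kraft inequality.
-/

namespace H33TW

open Finset Pool.Agent.H5.WI H5WL

/-- distinct subset sums -/
theorem sums_inj {a : ℕ → ℕ} {A : Finset ℕ} (hw : Ind 1 a (A : Set ℕ)) {X Y : Finset ℕ} (hX : X ⊆ A)
    (hY : Y ⊆ A) (h : ∑ i ∈ X, (a i : ℤ) = ∑ i ∈ Y, (a i : ℤ)) : X = Y := by
  classical
  have h1 : ∑ i ∈ A, ((if i ∈ X then (1 : ℤ) else 0) - (if i ∈ Y then (1 : ℤ) else 0)) * (a i : ℤ) = 0 := by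
    simp only [sub_mul, Finset.sum_sub_distrib, ite_mul, one_mul, zero_mul]
    rw [Finset.sum_ite_mem, Finset.sum_ite_mem, Finset.inter_eq_right.2 hX, Finset.inter_eq_right.2 hY, h,
      sub_self]
  have h2 := hw A (fun i hi => hi)
    (fun i => (if i ∈ X then (1 : ℤ) else 0) - (if i ∈ Y then (1 : ℤ) else 0))
    (by
      intro i _
      split_ifs <;> simp) h1
  ext i
  by_cases hA : i ∈ A
  · have h3 := h2 i hA
    split_ifs at h3 with h4 h5 h5 <;> simp_all
  · exact ⟨fun h => absurd (hX h) hA, fun h => absurd (hY h) hA⟩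

/-- the Kraft inequality for the signed representations of a number -/
theorem kraft {a : ℕ → ℕ} {A : Finset ℕ} (hw : Ind 1 a (A : Set ℕ)) (κ : ℤ)
    (W : Finset (Finset ℕ × Finset ℕ))
    (hW : ∀ p ∈ W, p.1 ⊆ A ∧ p.2 ⊆ A ∧ Disjoint p.1 p.2 ∧
      (∑ i ∈ p.1, (a i : ℤ)) - ∑ i ∈ p.2, (a i : ℤ) = κ) :
    ∑ p ∈ W, (1 / 2 : ℝ) ^ (p.1.card + p.2.card) ≤ 1 := by
  classical
  set E : Finset ℕ × Finset ℕ → Finset (Finset ℕ) :=
    fun p => ((A \ (p.1 ∪ p.2)).powerset).image (fun X => X ∪ p.2) with hE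
  have hle : ∀ p ∈ W, p.1.card + p.2.card ≤ A.card := by
    intro p hp
    obtain ⟨h1, h2, h3, _⟩ := hW p hp
    rw [← Finset.card_union_of_disjoint h3]
    exact Finset.card_le_card (Finset.union_subset h1 h2)
  have hcard : ∀ p ∈ W, (E p).card = 2 ^ (A.card - (p.1.card + p.2.card)) := by
    intro p hp
    obtain ⟨h1, h2, h3, _⟩ := hW p hp
    rw [hE]
    dsimp only
    rw [Finset.card_image_of_injOn, Finset.card_powerset,
      Finset.card_sdiff_of_subset (Finset.union_subset h1 h2), Finset.card_union_of_disjoint h3]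
    intro X hX Y hY hXY
    rw [Finset.mem_coe, Finset.mem_powerset] at hX hY
    dsimp only at hXY
    ext i
    have h4 := Finset.ext_iff.1 hXY i
    rw [Finset.mem_union, Finset.mem_union] at h4
    constructor
    · intro hi
      have h5 := hX hi
      rw [Finset.mem_sdiff, Finset.mem_union] at h5
      exact (h4.1 (Or.inl hi)).resolve_right fun h => h5.2 (Or.inr h)
    · intro hi
      have h5 := hY hi
      rw [Finset.mem_sdiff, Finset.mem_union] at h5
      exact (h4.2 (Or.inl hi)).resolve_right fun h => h5.2 (Or.inr h)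
  have hdisj : (W : Set (Finset ℕ × Finset ℕ)).PairwiseDisjoint E := by
    intro p hp q hq hpq
    rw [Function.onFun, Finset.disjoint_left]
    intro Z hZp hZq
    apply hpq
    obtain ⟨hp1, hp2, hp3, hp4⟩ := hW p hp
    obtain ⟨hq1, hq2, hq3, hq4⟩ := hW q hq
    rw [hE] at hZp hZq
    dsimp only at hZp hZq
    rw [Finset.mem_image] at hZp hZq
    obtain ⟨X, hX, hXZ⟩ := hZp
    obtain ⟨Y, hY, hYZ⟩ := hZq
    rw [Finset.mem_powerset] at hX hY
    have hX' : ∀ i ∈ X, i ∈ A ∧ i ∉ p.1 ∧ i ∉ p.2 := by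
      intro i hi
      have h5 := hX hi
      rw [Finset.mem_sdiff, Finset.mem_union, not_or] at h5
      exact h5
    have hY' : ∀ i ∈ Y, i ∈ A ∧ i ∉ q.1 ∧ i ∉ q.2 := by
      intro i hi
      have h5 := hY hi
      rw [Finset.mem_sdiff, Finset.mem_union, not_or] at h5
      exact h5
    have dX1 : Disjoint X p.1 := Finset.disjoint_left.2 fun i hi => (hX' i hi).2.1
    have dX2 : Disjoint X p.2 := Finset.disjoint_left.2 fun i hi => (hX' i hi).2.2
    have dY1 : Disjoint Y q.1 := Finset.disjoint_left.2 fun i hi => (hY' i hi).2.1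
    have dY2 : Disjoint Y q.2 := Finset.disjoint_left.2 fun i hi => (hY' i hi).2.2
    have hs : ∑ i ∈ X ∪ p.2, (a i : ℤ) = ∑ i ∈ Y ∪ q.2, (a i : ℤ) := by rw [hXZ, hYZ]
    rw [Finset.sum_union dX2, Finset.sum_union dY2] at hs
    have hZ' : X ∪ p.1 = Y ∪ q.1 := by
      apply sums_inj hw
      · exact Finset.union_subset (fun i hi => (hX' i hi).1) hp1
      · exact Finset.union_subset (fun i hi => (hY' i hi).1) hq1
      · rw [Finset.sum_union dX1, Finset.sum_union dY1]
        linarith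
    have hZ : X ∪ p.2 = Y ∪ q.2 := by rw [hXZ, hYZ]
    apply Prod.ext
    · ext i
      have h5 := Finset.ext_iff.1 hZ' i
      have h6 := Finset.ext_iff.1 hZ i
      rw [Finset.mem_union, Finset.mem_union] at h5 h6
      constructor
      · intro hi
        have h7 : i ∉ p.2 := Finset.disjoint_left.1 hp3 hi
        have h8 : i ∉ X := fun h => (hX' i h).2.1 hi
        have h9 : ¬ (i ∈ Y ∨ i ∈ q.2) := fun h => (h6.2 h).elim h8 h7
        exact (h5.1 (Or.inr hi)).resolve_left fun h => h9 (Or.inl h)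
      · intro hi
        have h7 : i ∉ q.2 := Finset.disjoint_left.1 hq3 hi
        have h8 : i ∉ Y := fun h => (hY' i h).2.1 hi
        have h9 : ¬ (i ∈ X ∨ i ∈ p.2) := fun h => (h6.1 h).elim h8 h7
        exact (h5.2 (Or.inr hi)).resolve_left fun h => h9 (Or.inl h)
    · ext i
      have h5 := Finset.ext_iff.1 hZ' i
      have h6 := Finset.ext_iff.1 hZ i
      rw [Finset.mem_union, Finset.mem_union] at h5 h6
      constructor
      · intro hi
        have h7 : i ∉ p.1 := Finset.disjoint_right.1 hp3 hi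
        have h8 : i ∉ X := fun h => (hX' i h).2.2 hi
        have h9 : ¬ (i ∈ Y ∨ i ∈ q.1) := fun h => (h5.2 h).elim h8 h7
        exact (h6.1 (Or.inr hi)).resolve_left fun h => h9 (Or.inl h)
      · intro hi
        have h7 : i ∉ q.1 := Finset.disjoint_right.1 hq3 hi
        have h8 : i ∉ Y := fun h => (hY' i h).2.2 hi
        have h9 : ¬ (i ∈ X ∨ i ∈ p.1) := fun h => (h5.1 h).elim h8 h7
        exact (h6.2 (Or.inr hi)).resolve_left fun h => h9 (Or.inl h)
  have hsub : W.biUnion E ⊆ A.powerset := by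
    intro Z hZ
    rw [Finset.mem_biUnion] at hZ
    obtain ⟨p, hp, hZ⟩ := hZ
    obtain ⟨hp1, hp2, hp3, hp4⟩ := hW p hp
    rw [hE] at hZ
    dsimp only at hZ
    rw [Finset.mem_image] at hZ
    obtain ⟨X, hX, rfl⟩ := hZ
    rw [Finset.mem_powerset] at hX ⊢
    exact Finset.union_subset (hX.trans Finset.sdiff_subset) hp2
  have h1 : ∑ p ∈ W, 2 ^ (A.card - (p.1.card + p.2.card)) ≤ 2 ^ A.card := by
    rw [← Finset.sum_congr rfl hcard, ← Finset.card_biUnion (fun p hp q hq hpq => hdisj hp hq hpq),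
      ← Finset.card_powerset]
    exact Finset.card_le_card hsub
  have h2 : ∑ p ∈ W, (1 / 2 : ℝ) ^ (p.1.card + p.2.card) * 2 ^ A.card ≤ 2 ^ A.card := by
    have h3 : ∀ p ∈ W, (1 / 2 : ℝ) ^ (p.1.card + p.2.card) * 2 ^ A.card =
        ((2 ^ (A.card - (p.1.card + p.2.card)) : ℕ) : ℝ) := by
      intro p hp
      have h4 : A.card = (p.1.card + p.2.card) + (A.card - (p.1.card + p.2.card)) := by
        have := hle p hp
        omega
      push_cast
      conv_lhs => rw [h4]
      rw [pow_add (2 : ℝ), ← mul_assoc, ← mul_pow]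
      norm_num
    rw [Finset.sum_congr rfl h3]
    exact_mod_cast h1
  rw [← Finset.sum_mul] at h2
  have h3 : (0 : ℝ) < 2 ^ A.card := by positivity
  exact le_of_mul_le_mul_right (by linarith) h3

/-- the first moment method with eight colours -/
theorem col8 (A : Finset ℕ) (H : Finset (Finset ℕ)) (hH : ∀ S ∈ H, S ⊆ A)
    (hs : 8 * ∑ S ∈ H, (1 / 8 : ℝ) ^ S.card < 1) :
    ∃ c : ℕ → Fin 8, ∀ S ∈ H, ¬ ∃ j, ∀ i ∈ S, c i = j := by
  classical
  let B : Finset ℕ → Finset (A → Fin 8) :=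
    fun S => Finset.univ.biUnion fun j : Fin 8 =>
      Fintype.piFinset fun i : A => if (i : ℕ) ∈ S then {j} else Finset.univ
  have hB : ∀ S ∈ H, ((B S).card : ℝ) ≤ 8 * (1 / 8 : ℝ) ^ S.card * 8 ^ A.card := by
    intro S hS
    have h1 : (B S).card ≤ ∑ j : Fin 8,
        (Fintype.piFinset fun i : A => if (i : ℕ) ∈ S then ({j} : Finset (Fin 8)) else Finset.univ).card :=
      Finset.card_biUnion_le
    have h2 : ∀ j : Fin 8,
        (Fintype.piFinset fun i : A => if (i : ℕ) ∈ S then ({j} : Finset (Fin 8)) else Finset.univ).card =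
          8 ^ (A.card - S.card) := by
      intro j
      rw [Fintype.card_piFinset]
      have h3 : ∀ i : A, (if (i : ℕ) ∈ S then ({j} : Finset (Fin 8)) else Finset.univ).card =
          if (i : ℕ) ∈ S then 1 else 8 := by
        intro i
        split_ifs
        · rw [Finset.card_singleton]
        · rw [Finset.card_univ, Fintype.card_fin]
      rw [Finset.prod_congr rfl fun i _ => h3 i, Finset.prod_coe_sort A (fun i => if i ∈ S then 1 else 8),
        Finset.prod_ite, Finset.prod_const_one, one_mul, Finset.prod_const]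
      congr 1
      rw [Finset.filter_not, Finset.filter_mem_eq_inter, Finset.inter_eq_right.2 (hH S hS),
        Finset.card_sdiff_of_subset (hH S hS)]
    rw [Finset.sum_congr rfl fun j _ => h2 j, Finset.sum_const, Finset.card_univ, Fintype.card_fin,
      smul_eq_mul] at h1
    have h4 : A.card = S.card + (A.card - S.card) := by
      have := Finset.card_le_card (hH S hS)
      omega
    have h5 : 8 * (1 / 8 : ℝ) ^ S.card * 8 ^ A.card = ((8 * 8 ^ (A.card - S.card) : ℕ) : ℝ) := by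
      push_cast
      conv_lhs => rw [h4]
      rw [pow_add (8 : ℝ), mul_assoc, ← mul_assoc _ ((8 : ℝ) ^ S.card), ← mul_pow]
      norm_num
    rw [h5]
    exact_mod_cast h1
  have hex : ∃ c : A → Fin 8, ∀ S ∈ H, c ∉ B S := by
    by_contra hcon
    push Not at hcon
    have h1 : (Finset.univ : Finset (A → Fin 8)) ⊆ H.biUnion B := by
      intro c _
      obtain ⟨S, hS, hc⟩ := hcon c
      exact Finset.mem_biUnion.2 ⟨S, hS, hc⟩
    have h2 := (Finset.card_le_card h1).trans Finset.card_biUnion_le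
    rw [Finset.card_univ, Fintype.card_fun, Fintype.card_fin, Fintype.card_coe] at h2
    have h3 : ((8 : ℝ) ^ A.card) ≤ ∑ S ∈ H, ((B S).card : ℝ) := by exact_mod_cast h2
    have h4 := h3.trans (Finset.sum_le_sum hB)
    rw [← Finset.sum_mul, ← Finset.mul_sum] at h4
    have h5 : (0 : ℝ) < 8 ^ A.card := by positivity
    have h6 := mul_lt_mul_of_pos_right hs h5
    linarith
  obtain ⟨c, hc⟩ := hex
  refine ⟨fun i => if hi : i ∈ A then c ⟨i, hi⟩ else 0, fun S hS hj => ?_⟩
  obtain ⟨j, hj⟩ := hj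
  apply hc S hS
  refine Finset.mem_biUnion.2 ⟨j, Finset.mem_univ _, ?_⟩
  rw [Fintype.mem_piFinset]
  intro i
  split_ifs with h
  · have h1 := hj i h
    dsimp only at h1
    rw [dif_pos i.2] at h1
    rw [Finset.mem_singleton]
    exact h1
  · exact Finset.mem_univ _

/-- the weighted number of keys -/
theorem sum_keys (A : Finset ℕ) (hn : 1 ≤ A.card) :
    ∑ K ∈ A.powerset ×ˢ A.powerset, (1 / (4 * (A.card : ℝ))) ^ (K.1.card + K.2.card) ≤ 2 := by
  have hn' : (1 : ℝ) ≤ A.card := by exact_mod_cast hn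
  have h1 : ∑ P ∈ A.powerset, (1 / (4 * (A.card : ℝ))) ^ P.card = (1 / (4 * (A.card : ℝ)) + 1) ^ A.card := by
    rw [← Finset.sum_pow_mul_eq_add_pow]
    simp
  rw [Finset.sum_product]
  have h2 : ∀ x ∈ A.powerset, ∑ y ∈ A.powerset, (1 / (4 * (A.card : ℝ))) ^ (x.card + y.card) =
      (1 / (4 * (A.card : ℝ))) ^ x.card * (1 / (4 * (A.card : ℝ)) + 1) ^ A.card := by
    intro x _
    rw [← h1, Finset.mul_sum]
    exact Finset.sum_congr rfl fun y _ => pow_add _ _ _
  rw [Finset.sum_congr rfl h2, ← Finset.sum_mul, h1, ← pow_add]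
  have h3 : (1 / (4 * (A.card : ℝ)) + 1) ^ (A.card + A.card) ≤ Real.exp (1 / 2) := by
    have h4 := pow_le_pow_left₀ (by positivity) (Real.add_one_le_exp (1 / (4 * (A.card : ℝ)))) (A.card + A.card)
    refine h4.trans ?_
    rw [← Real.exp_nat_mul]
    apply Real.exp_le_exp.2
    push_cast
    have h5 : (A.card : ℝ) ≠ 0 := by positivity
    field_simp
    norm_num
  have h6 : Real.exp (1 / 2) ≤ 2 := by
    have h7 : Real.exp (1 / 2) * Real.exp (1 / 2) = Real.exp 1 := by
      rw [← Real.exp_add]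
      norm_num
    have h8 := Real.exp_one_lt_d9
    nlinarith [Real.exp_pos (1 / 2)]
  exact h3.trans h6

theorem num_le {N : ℝ} (hN : 1 ≤ N) (d u : ℕ) (hu : 6 ≤ u) (h : N ^ d ≤ 2 ^ (d + u)) :
    (1 / 8 : ℝ) ^ (d + u) ≤ 1 / 64 * (1 / (4 * N)) ^ d * (1 / 2) ^ u := by
  have hN0 : 0 < N := by linarith
  have h5 : (1 / (4 * N)) ^ d = 1 / (4 ^ d * N ^ d) := by
    rw [div_pow, one_pow, mul_pow]
  have h6 : (1 / 8 : ℝ) ^ (d + u) = 1 / 8 ^ (d + u) := by rw [div_pow, one_pow]
  have h7 : (1 / 2 : ℝ) ^ u = 1 / 2 ^ u := by rw [div_pow, one_pow]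
  have h8 : 1 / 64 * (1 / (4 ^ d * N ^ d)) * (1 / 2 ^ u) = 1 / (64 * (4 ^ d * N ^ d) * 2 ^ u) := by
    rw [one_div_mul_one_div, one_div_mul_one_div]
  rw [h5, h6, h7, h8]
  apply one_div_le_one_div_of_le (by positivity)
  have h9 : (8 : ℝ) ^ (d + u) = 2 ^ (d + u) * (4 ^ d * 4 ^ u) := by
    rw [← pow_add, ← mul_pow]
    norm_num
  have h10 : (64 : ℝ) * 2 ^ u ≤ 4 ^ u := by
    have h11 : (4 : ℝ) ^ u = 2 ^ u * 2 ^ u := by
      rw [← mul_pow]
      norm_num
    have h12 : (64 : ℝ) ≤ 2 ^ u := by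
      have h13 : (2 : ℝ) ^ 6 ≤ 2 ^ u := pow_le_pow_right₀ (by norm_num) hu
      norm_num at h13
      exact h13
    rw [h11]
    exact mul_le_mul_of_nonneg_right h12 (by positivity)
  calc 64 * (4 ^ d * N ^ d) * 2 ^ u = N ^ d * (4 ^ d * (64 * 2 ^ u)) := by ring
    _ ≤ 2 ^ (d + u) * (4 ^ d * 4 ^ u) := by
        apply mul_le_mul h _ (by positivity) (by positivity)
        exact mul_le_mul_of_nonneg_left h10 (by positivity)
    _ = 8 ^ (d + u) := h9.symm

/-- long supports have small total weight -/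
theorem sum_long {a : ℕ → ℕ} {A : Finset ℕ} (hw : Ind 1 a (A : Set ℕ)) (hn : 1 ≤ A.card)
    (H : Finset (Finset ℕ)) (key val : Finset ℕ → Finset ℕ × Finset ℕ)
    (hcard : ∀ S ∈ H, S.card = ((key S).1.card + (key S).2.card) + ((val S).1.card + (val S).2.card))
    (hkey : ∀ S ∈ H, (key S).1 ⊆ A ∧ (key S).2 ⊆ A)
    (hval : ∀ S ∈ H, (val S).1 ⊆ A ∧ (val S).2 ⊆ A ∧ Disjoint (val S).1 (val S).2)
    (hS : ∀ S ∈ H, S = (key S).1 ∪ (key S).2 ∪ ((val S).1 ∪ (val S).2))
    (κ : Finset ℕ × Finset ℕ → ℤ)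
    (hκ : ∀ S ∈ H, (∑ i ∈ (val S).1, (a i : ℤ)) - ∑ i ∈ (val S).2, (a i : ℤ) = κ (key S))
    (hle : ∀ S ∈ H, 6 ≤ (val S).1.card + (val S).2.card)
    (hpow : ∀ S ∈ H, A.card ^ ((key S).1.card + (key S).2.card) ≤ 2 ^ S.card) :
    ∑ S ∈ H, (1 / 8 : ℝ) ^ S.card ≤ 1 / 32 := by
  classical
  have hn' : (1 : ℝ) ≤ A.card := by exact_mod_cast hn
  have hn0 : (0 : ℝ) < A.card := by linarith
  set x : ℝ := 1 / (4 * (A.card : ℝ)) with hx
  have hx0 : 0 ≤ x := by positivity
  have hterm : ∀ S ∈ H, (1 / 8 : ℝ) ^ S.card ≤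
      1 / 64 * x ^ ((key S).1.card + (key S).2.card) * (1 / 2) ^ ((val S).1.card + (val S).2.card) := by
    intro S hSH
    have h1 := hcard S hSH
    have h2 := hle S hSH
    have h3 := hpow S hSH
    rw [h1] at h3 ⊢
    rw [hx]
    exact num_le hn' _ _ h2 (by exact_mod_cast h3)
  refine (Finset.sum_le_sum hterm).trans ?_
  have hmaps : ∀ S ∈ H, key S ∈ A.powerset ×ˢ A.powerset := by
    intro S hSH
    rw [Finset.mem_product, Finset.mem_powerset, Finset.mem_powerset]
    exact hkey S hSH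
  rw [← Finset.sum_fiberwise_of_maps_to hmaps]
  have hfib : ∀ K ∈ A.powerset ×ˢ A.powerset, ∑ S ∈ H with key S = K,
      1 / 64 * x ^ ((key S).1.card + (key S).2.card) * (1 / 2) ^ ((val S).1.card + (val S).2.card) ≤
      1 / 64 * x ^ (K.1.card + K.2.card) := by
    intro K _
    have h1 : ∑ S ∈ H with key S = K,
        1 / 64 * x ^ ((key S).1.card + (key S).2.card) * (1 / 2) ^ ((val S).1.card + (val S).2.card) =
        1 / 64 * x ^ (K.1.card + K.2.card) *
          ∑ S ∈ H with key S = K, (1 / 2 : ℝ) ^ ((val S).1.card + (val S).2.card) := by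
      rw [Finset.mul_sum]
      apply Finset.sum_congr rfl
      intro S hSH
      rw [(Finset.mem_filter.1 hSH).2]
    have h2 : ∑ S ∈ H with key S = K, (1 / 2 : ℝ) ^ ((val S).1.card + (val S).2.card) =
        ∑ p ∈ (H.filter (fun S => key S = K)).image val, (1 / 2 : ℝ) ^ (p.1.card + p.2.card) := by
      rw [Finset.sum_image]
      intro S hSH T hTH hST
      rw [Finset.mem_coe, Finset.mem_filter] at hSH hTH
      rw [hS S hSH.1, hS T hTH.1, hSH.2, hTH.2, hST]
    have h3 : ∑ p ∈ (H.filter (fun S => key S = K)).image val, (1 / 2 : ℝ) ^ (p.1.card + p.2.card) ≤ 1 := by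
      apply kraft hw (κ K)
      intro p hp
      rw [Finset.mem_image] at hp
      obtain ⟨S, hSH, rfl⟩ := hp
      rw [Finset.mem_filter] at hSH
      obtain ⟨h4, h5, h6⟩ := hval S hSH.1
      refine ⟨h4, h5, h6, ?_⟩
      rw [hκ S hSH.1, hSH.2]
    rw [h1, h2]
    exact mul_le_of_le_one_right (by positivity) h3
  refine (Finset.sum_le_sum hfib).trans ?_
  rw [← Finset.mul_sum]
  have := sum_keys A hn
  rw [← hx] at this
  linarith

/-- the support of a relation with coefficients `±1, ±2` that is long compared with the smaller one of the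
numbers of its coefficients `±2` and `±1` -/
def Long (a : ℕ → ℕ) (n : ℕ) (S : Finset ℕ) : Prop :=
  ∃ ε : ℕ → ℤ, (∀ i ∈ S, |ε i| ≤ 2 ∧ ε i ≠ 0) ∧ ∑ i ∈ S, ε i * (a i : ℤ) = 0 ∧ 12 ≤ S.card ∧
    n ^ (min (S.filter (fun i => |ε i| = 2)).card (S.filter (fun i => |ε i| = 1)).card) ≤ 2 ^ S.card

theorem split_sum {a : ℕ → ℕ} {S : Finset ℕ} {ε : ℕ → ℤ} (hε : ∀ i ∈ S, |ε i| ≤ 2 ∧ ε i ≠ 0) :
    ∑ i ∈ S, ε i * (a i : ℤ) =
      2 * ((∑ i ∈ S.filter (fun i => ε i = 2), (a i : ℤ)) - ∑ i ∈ S.filter (fun i => ε i = -2), (a i : ℤ)) +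
      ((∑ i ∈ S.filter (fun i => ε i = 1), (a i : ℤ)) - ∑ i ∈ S.filter (fun i => ε i = -1), (a i : ℤ)) := by
  classical
  simp only [Finset.sum_filter]
  rw [← Finset.sum_sub_distrib, ← Finset.sum_sub_distrib, Finset.mul_sum, ← Finset.sum_add_distrib]
  apply Finset.sum_congr rfl
  intro i hi
  obtain ⟨h1, h2⟩ := hε i hi
  rw [abs_le] at h1
  have h3 : ε i = -2 ∨ ε i = -1 ∨ ε i = 1 ∨ ε i = 2 := by omega
  rcases h3 with h | h | h | h <;> rw [h] <;> norm_num

theorem split_union {S : Finset ℕ} {ε : ℕ → ℤ} (hε : ∀ i ∈ S, |ε i| ≤ 2 ∧ ε i ≠ 0) :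
    S = S.filter (fun i => ε i = 2) ∪ S.filter (fun i => ε i = -2) ∪
      (S.filter (fun i => ε i = 1) ∪ S.filter (fun i => ε i = -1)) := by
  classical
  ext i
  simp only [Finset.mem_union, Finset.mem_filter]
  constructor
  · intro hi
    obtain ⟨h1, h2⟩ := hε i hi
    rw [abs_le] at h1
    have h3 : ε i = -2 ∨ ε i = -1 ∨ ε i = 1 ∨ ε i = 2 := by omega
    rcases h3 with h | h | h | h
    · exact Or.inl (Or.inr ⟨hi, h⟩)
    · exact Or.inr (Or.inr ⟨hi, h⟩)
    · exact Or.inr (Or.inl ⟨hi, h⟩)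
    · exact Or.inl (Or.inl ⟨hi, h⟩)
  · rintro ((h | h) | (h | h)) <;> exact h.1

theorem filter_disj (S : Finset ℕ) (ε : ℕ → ℤ) {p q : ℤ} (hpq : p ≠ q) :
    Disjoint (S.filter (fun i => ε i = p)) (S.filter (fun i => ε i = q)) := by
  rw [Finset.disjoint_left]
  intro i hi hj
  rw [Finset.mem_filter] at hi hj
  exact hpq (hi.2.symm.trans hj.2)

theorem split_card {S : Finset ℕ} {ε : ℕ → ℤ} (hε : ∀ i ∈ S, |ε i| ≤ 2 ∧ ε i ≠ 0) :
    S.card = ((S.filter (fun i => ε i = 2)).card + (S.filter (fun i => ε i = -2)).card) +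
      ((S.filter (fun i => ε i = 1)).card + (S.filter (fun i => ε i = -1)).card) := by
  classical
  conv_lhs => rw [split_union hε]
  rw [Finset.card_union_of_disjoint, Finset.card_union_of_disjoint (filter_disj S ε (by norm_num)),
    Finset.card_union_of_disjoint (filter_disj S ε (by norm_num))]
  rw [Finset.disjoint_union_left, Finset.disjoint_union_right, Finset.disjoint_union_right]
  exact ⟨⟨filter_disj S ε (by norm_num), filter_disj S ε (by norm_num)⟩,
    ⟨filter_disj S ε (by norm_num), filter_disj S ε (by norm_num)⟩⟩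

theorem abs_card (S : Finset ℕ) (ε : ℕ → ℤ) {p : ℤ} (hp : 0 < p) :
    (S.filter (fun i => |ε i| = p)).card =
      (S.filter (fun i => ε i = p)).card + (S.filter (fun i => ε i = -p)).card := by
  classical
  rw [← Finset.card_union_of_disjoint (filter_disj S ε (by omega))]
  congr 1
  ext i
  rw [Finset.mem_union, Finset.mem_filter, Finset.mem_filter, Finset.mem_filter, abs_eq hp.le]
  constructor
  · rintro ⟨h1, h2 | h2⟩
    · exact Or.inl ⟨h1, h2⟩
    · exact Or.inr ⟨h1, h2⟩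
  · rintro (⟨h1, h2⟩ | ⟨h1, h2⟩)
    · exact ⟨h1, Or.inl h2⟩
    · exact ⟨h1, Or.inr h2⟩

/-- eight colours for the long relations -/
theorem long_col {a : ℕ → ℕ} (A : Finset ℕ) (hw : Ind 1 a (A : Set ℕ)) (hn : 1 ≤ A.card) :
    ∃ c : ℕ → Fin 8, ∀ S ⊆ A, Long a A.card S → ¬ ∃ j, ∀ i ∈ S, c i = j := by
  classical
  set H : Finset (Finset ℕ) := A.powerset.filter (fun S => Long a A.card S) with hH
  have hHm : ∀ S ∈ H, S ⊆ A ∧ Long a A.card S := by
    intro S hS
    rw [hH, Finset.mem_filter, Finset.mem_powerset] at hS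
    exact hS
  have hex : ∀ S : Finset ℕ, ∃ ε : ℕ → ℤ, S ∈ H → (∀ i ∈ S, |ε i| ≤ 2 ∧ ε i ≠ 0) ∧
      ∑ i ∈ S, ε i * (a i : ℤ) = 0 ∧ 12 ≤ S.card ∧
      A.card ^ (min (S.filter (fun i => |ε i| = 2)).card (S.filter (fun i => |ε i| = 1)).card) ≤
        2 ^ S.card := by
    intro S
    by_cases hS : S ∈ H
    · obtain ⟨ε, hε⟩ := (hHm S hS).2
      exact ⟨ε, fun _ => hε⟩
    · exact ⟨0, fun h => absurd h hS⟩
  choose ε hε using hex
  set two : Finset ℕ → Finset ℕ × Finset ℕ :=
    fun S => (S.filter (fun i => ε S i = 2), S.filter (fun i => ε S i = -2)) with htwo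
  set one : Finset ℕ → Finset ℕ × Finset ℕ :=
    fun S => (S.filter (fun i => ε S i = 1), S.filter (fun i => ε S i = -1)) with hone
  have hc : ∀ S ∈ H, S.card = ((two S).1.card + (two S).2.card) + ((one S).1.card + (one S).2.card) :=
    fun S hS => split_card (hε S hS).1
  have hu : ∀ S ∈ H, S = (two S).1 ∪ (two S).2 ∪ ((one S).1 ∪ (one S).2) :=
    fun S hS => split_union (hε S hS).1
  have hs : ∀ S ∈ H, 2 * ((∑ i ∈ (two S).1, (a i : ℤ)) - ∑ i ∈ (two S).2, (a i : ℤ)) +
      ((∑ i ∈ (one S).1, (a i : ℤ)) - ∑ i ∈ (one S).2, (a i : ℤ)) = 0 := by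
    intro S hS
    rw [← (hε S hS).2.1]
    exact (split_sum (hε S hS).1).symm
  have hp : ∀ S ∈ H, A.card ^ (min ((two S).1.card + (two S).2.card) ((one S).1.card + (one S).2.card)) ≤
      2 ^ S.card := by
    intro S hS
    have h1 := (hε S hS).2.2.2
    rw [abs_card S (ε S) (by norm_num), abs_card S (ε S) (by norm_num)] at h1
    exact h1
  have htA : ∀ S ∈ H, (two S).1 ⊆ A ∧ (two S).2 ⊆ A :=
    fun S hS => ⟨(Finset.filter_subset _ _).trans (hHm S hS).1, (Finset.filter_subset _ _).trans (hHm S hS).1⟩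
  have hoA : ∀ S ∈ H, (one S).1 ⊆ A ∧ (one S).2 ⊆ A :=
    fun S hS => ⟨(Finset.filter_subset _ _).trans (hHm S hS).1, (Finset.filter_subset _ _).trans (hHm S hS).1⟩
  have hsum1 : ∑ S ∈ H with (two S).1.card + (two S).2.card ≤ (one S).1.card + (one S).2.card,
      (1 / 8 : ℝ) ^ S.card ≤ 1 / 32 := by
    refine sum_long hw hn _ two one ?_ ?_ ?_ ?_
      (fun K => -2 * ((∑ i ∈ K.1, (a i : ℤ)) - ∑ i ∈ K.2, (a i : ℤ))) ?_ ?_ ?_
    · intro S hS
      exact hc S (Finset.mem_filter.1 hS).1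
    · intro S hS
      exact htA S (Finset.mem_filter.1 hS).1
    · intro S hS
      exact ⟨(hoA S (Finset.mem_filter.1 hS).1).1, (hoA S (Finset.mem_filter.1 hS).1).2,
        filter_disj S (ε S) (by norm_num)⟩
    · intro S hS
      exact hu S (Finset.mem_filter.1 hS).1
    · intro S hS
      have h1 := hs S (Finset.mem_filter.1 hS).1
      linarith
    · intro S hS
      rw [Finset.mem_filter] at hS
      have h1 := (hε S hS.1).2.2.1
      have h2 := hc S hS.1
      omega
    · intro S hS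
      rw [Finset.mem_filter] at hS
      have h1 := hp S hS.1
      rw [min_eq_left hS.2] at h1
      exact h1
  have hsum2 : ∑ S ∈ H with ¬ (two S).1.card + (two S).2.card ≤ (one S).1.card + (one S).2.card,
      (1 / 8 : ℝ) ^ S.card ≤ 1 / 32 := by
    refine sum_long hw hn _ one two ?_ ?_ ?_ ?_
      (fun K => -((∑ i ∈ K.1, (a i : ℤ)) - ∑ i ∈ K.2, (a i : ℤ)) / 2) ?_ ?_ ?_
    · intro S hS
      rw [add_comm]
      exact hc S (Finset.mem_filter.1 hS).1
    · intro S hS
      exact hoA S (Finset.mem_filter.1 hS).1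
    · intro S hS
      exact ⟨(htA S (Finset.mem_filter.1 hS).1).1, (htA S (Finset.mem_filter.1 hS).1).2,
        filter_disj S (ε S) (by norm_num)⟩
    · intro S hS
      rw [Finset.union_comm]
      exact hu S (Finset.mem_filter.1 hS).1
    · intro S hS
      have h1 := hs S (Finset.mem_filter.1 hS).1
      omega
    · intro S hS
      rw [Finset.mem_filter] at hS
      have h1 := (hε S hS.1).2.2.1
      have h2 := hc S hS.1
      omega
    · intro S hS
      rw [Finset.mem_filter] at hS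
      have h1 := hp S hS.1
      rw [min_eq_right (le_of_not_ge hS.2)] at h1
      exact h1
  have hsum := Finset.sum_filter_add_sum_filter_not H
    (fun S => (two S).1.card + (two S).2.card ≤ (one S).1.card + (one S).2.card)
    (fun S => (1 / 8 : ℝ) ^ S.card)
  obtain ⟨c, hcol⟩ := col8 A H (fun S hS => (hHm S hS).1) (by linarith)
  refine ⟨c, fun S hS hL => hcol S ?_⟩
  rw [hH, Finset.mem_filter, Finset.mem_powerset]
  exact ⟨hS, hL⟩

/-- no nontrivial relation with coefficients in `{0, ±1, ±2}` in which at most `h` coefficients are `±2`, or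
at most `h` coefficients are `±1` -/
def NoFew (h : ℕ) (a : ℕ → ℕ) (S : Set ℕ) : Prop :=
  ∀ s : Finset ℕ, (∀ i ∈ s, i ∈ S) → ∀ ε : ℕ → ℤ, (∀ i ∈ s, |ε i| ≤ 2) →
    ((s.filter (fun i => |ε i| = 2)).card ≤ h ∨ (s.filter (fun i => |ε i| = 1)).card ≤ h) →
    ∑ i ∈ s, ε i * (a i : ℤ) = 0 → ∀ i ∈ s, ε i = 0

/-- **Relations of any length with few coefficients `±2`, or few coefficients `±1`.** -/
theorem few {h m : ℕ} {a : ℕ → ℕ} (A : Finset ℕ) (hw : Ind 1 a (A : Set ℕ))
    (hm : 5 * Real.log ((h * Nat.clog 2 A.card + 12 : ℕ) : ℝ) + 12 ≤ m) :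
    ∃ f : ℕ → Fin (8 * m), ∀ j, NoFew h a {i | i ∈ A ∧ f i = j} := by
  classical
  have hlog : 0 ≤ Real.log ((h * Nat.clog 2 A.card + 12 : ℕ) : ℝ) :=
    Real.log_nonneg (by exact_mod_cast (by omega : 1 ≤ h * Nat.clog 2 A.card + 12))
  have hm0 : 0 < m := by
    have : (0 : ℝ) < m := by linarith
    exact_mod_cast this
  rcases Nat.eq_zero_or_pos A.card with h0 | hn
  · rw [Finset.card_eq_zero] at h0
    subst h0
    refine ⟨fun _ => ⟨0, by omega⟩, fun j s hs => ?_⟩
    intro ε _ _ _ i hi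
    exact absurd (hs i hi).1 (Finset.notMem_empty i)
  · obtain ⟨c1, hc1⟩ := fin_col (K := 2) (D := 2) (k := h * Nat.clog 2 A.card + 12) (by norm_num) (by omega)
      (by norm_num) dvd_two ((log_two_mul (by omega)).trans hm) A hw
    obtain ⟨c2, hc2⟩ := long_col A hw hn
    refine ⟨fun i => finProdFinEquiv (c2 i, c1 i), fun j s hs ε hε hfew h0 i hi => ?_⟩
    by_contra hcon
    set S := s.filter (fun i => ε i ≠ 0) with hS
    have hSs : ∀ i ∈ S, i ∈ s := fun i hi => (Finset.mem_filter.1 hi).1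
    have hSA : S ⊆ A := fun i hi => (hs i (hSs i hi)).1
    have hcol : ∀ i ∈ S, c2 i = (finProdFinEquiv.symm j).1 ∧ c1 i = (finProdFinEquiv.symm j).2 := by
      intro i hi
      have h1 : finProdFinEquiv (c2 i, c1 i) = j := (hs i (hSs i hi)).2
      rw [← h1, Equiv.symm_apply_apply]
      exact ⟨rfl, rfl⟩
    have hne : S.Nonempty := ⟨i, Finset.mem_filter.2 ⟨hi, hcon⟩⟩
    have hεS : ∀ i ∈ S, |ε i| ≤ 2 ∧ ε i ≠ 0 :=
      fun i hi => ⟨hε i (hSs i hi), (Finset.mem_filter.1 hi).2⟩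
    have hsumS : ∑ i ∈ S, ε i * (a i : ℤ) = 0 := by
      rw [← h0, hS]
      apply Finset.sum_filter_of_ne
      intro x _ hx hx0
      rw [hx0, zero_mul] at hx
      exact hx rfl
    by_cases hk : S.card ≤ h * Nat.clog 2 A.card + 12
    · exact hc1 S ⟨hne, hk, ε, hεS, hsumS⟩ hSA ⟨_, fun i hi => (hcol i hi).2⟩
    · apply hc2 S hSA _ ⟨_, fun i hi => (hcol i hi).1⟩
      refine ⟨ε, hεS, hsumS, by omega, ?_⟩
      have hmin : min (S.filter (fun i => |ε i| = 2)).card (S.filter (fun i => |ε i| = 1)).card ≤ h := by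
        have h2 : (S.filter (fun i => |ε i| = 2)).card ≤ (s.filter (fun i => |ε i| = 2)).card :=
          Finset.card_le_card (Finset.filter_subset_filter _ hSs)
        have h1 : (S.filter (fun i => |ε i| = 1)).card ≤ (s.filter (fun i => |ε i| = 1)).card :=
          Finset.card_le_card (Finset.filter_subset_filter _ hSs)
        rcases hfew with h3 | h3
        · exact (min_le_left _ _).trans (h2.trans h3)
        · exact (min_le_right _ _).trans (h1.trans h3)
      calc A.card ^ (min (S.filter (fun i => |ε i| = 2)).card (S.filter (fun i => |ε i| = 1)).card)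
          ≤ A.card ^ h := Nat.pow_le_pow_right hn hmin
        _ ≤ (2 ^ Nat.clog 2 A.card) ^ h := Nat.pow_le_pow_left (Nat.le_pow_clog (by norm_num) _) h
        _ = 2 ^ (h * Nat.clog 2 A.card) := by rw [← pow_mul, mul_comm]
        _ ≤ 2 ^ S.card := Nat.pow_le_pow_right (by norm_num) (by omega)

end H33TW
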